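import Pool.Agent.Q36.PartExp.Consts

open scoped Topology BigOperators Classical
open Filter Finset Pool.Agent.Q36.PartExp

namespace Pool.Agent.Results.MP_5217bf_nt.NotEventuallyPeriodic

/-- The `A`-partition polynomial `f_{A,n}(t)`: the sum of `t ^ (number of parts)` over all
partitions of `n` all of whose parts lie in `A`. -/
noncomputable def partitionPoly (A : Set ℕ) (n : ℕ) : Polynomial ℤ :=
  ∑ p : n.Partition with ∀ i ∈ p.parts, i ∈ A, Polynomial.X ^ (Multiset.card p.parts)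

/-- The set `{3m + 1 : m ≥ 0}`. -/
def A : Set ℕ := {a | ∃ m : ℕ, a = 3 * m + 1}

/-- the set as a predicate -/
def Ap : ℕ → Prop := fun a => ∃ m : ℕ, a = 3 * m + 1

/-- the integers `f_{A,n}(-1)` -/
noncomputable def fz (n : ℕ) : ℤ := (partitionPoly A n).eval (-1)

lemma isAP : IsAP Ap 3 1 := ⟨by norm_num, le_rfl, fun _ _ => Iff.rfl⟩

lemma cast_fz (n : ℕ) : ((fz n : ℝ) : ℂ) = cw Ap (-1) n := by
  unfold fz partitionPoly cw
  rw [Polynomial.eval_finsetSum]
  push_cast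
  refine Finset.sum_congr rfl fun p _ => ?_
  simp

lemma ee_cases {ζ : ℂ} (h : ζ ^ 3 = 1) :
    ∃ x : ℝ, 1 / 6 ≤ x ∧ x ≤ 5 / 6 ∧ (-1 : ℂ) * ζ ^ 1 = ee x := by
  have hp := Complex.isPrimitiveRoot_exp 3 (by norm_num)
  obtain ⟨i, hi, rfl⟩ := hp.eq_pow_of_pow_eq_one h
  have he : Complex.exp (2 * Real.pi * Complex.I / (3 : ℕ)) = ee (1 / 3) := by
    rw [ee]; congr 1; push_cast; ring
  rw [he, pow_one, ee_pow, ← ee_half, ← ee_add]
  interval_cases i
  · exact ⟨1 / 2, by norm_num, by norm_num, by norm_num⟩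
  · exact ⟨5 / 6, by norm_num, by norm_num, by norm_num⟩
  · refine ⟨1 / 6, by norm_num, by norm_num, ?_⟩
    rw [show (1 / 2 + ((2 : ℕ) : ℝ) * (1 / 3) : ℝ) = 1 / 6 + 1 by norm_num, ee_add, ee_one,
      mul_one]

/-- For `A = {1, 4, 7, 10, …}` the sequence of signs of `f_{A,n}(-1)` is not eventually
periodic. -/
theorem result : ¬ ∃ p : ℕ, 1 ≤ p ∧ ∃ N : ℕ, ∀ n ≥ N,
    ((partitionPoly A (n + p)).eval (-1)).sign = ((partitionPoly A n).eval (-1)).sign := by
  rintro ⟨p, hp, N, hN⟩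
  have hper : ∀ n ≥ N, (fz (n + p)).sign = (fz n).sign := hN
  have hw : ‖(-1 : ℂ)‖ ≤ 1 := by simp
  have hζ := Complex.isPrimitiveRoot_exp p (by omega)
  set ζ := Complex.exp (2 * Real.pi * Complex.I / p) with hζdef
  have hz : ‖ζ‖ = 1 := hζ.norm'_eq_one (by omega)
  have hzj : ∀ j : ℕ, ‖ζ ^ j‖ = 1 := fun j => by rw [norm_pow, hz, one_pow]
  obtain ⟨C, hC, hb⟩ := sign_bound (fun n => (fz n : ℝ)) (fun n => ((fz n).sign : ℝ)) p N
    (by omega)
    (fun n => by
      rcases lt_trichotomy (fz n) 0 with h | h | h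
      · rw [Int.sign_eq_neg_one_of_neg h]; simp
      · rw [h]; simp
      · rw [Int.sign_eq_one_of_pos h]; simp)
    (fun n hn => by simp only [hper n hn])
    (fun n _ => by
      have h : (fz n).sign * fz n = |fz n| := by
        rcases lt_trichotomy (fz n) 0 with h | h | h
        · rw [Int.sign_eq_neg_one_of_neg h, abs_of_neg h]; ring
        · rw [h]; simp
        · rw [Int.sign_eq_one_of_pos h, abs_of_pos h, one_mul]
      exact_mod_cast h)
    (fun r hr0 hr => by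
      have h := summable_cw (A := Ap) hw hr0 hr
      refine h.congr fun n => ?_
      rw [← cast_fz, Complex.norm_real, Real.norm_eq_abs])
    hζ
  have hF : ∀ x : ℂ, ‖x‖ < 1 → ‖∑' n, ((fz n : ℝ) : ℂ) * x ^ n‖ =
      Real.exp (GG Ap (-1) x).re := by
    intro x hx
    rw [← norm_gf hw hx]
    congr 1
    exact tsum_congr fun n => by rw [cast_fz]
  -- the special point
  have h0 : (ee (2 / 3)) ^ 3 = 1 := by
    rw [ee_pow, show (((3 : ℕ) : ℝ) * (2 / 3)) = 1 + 1 by norm_num, ee_add, ee_one, one_mul]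
  have h1 : (-1 : ℂ) * (ee (2 / 3)) ^ 1 = ee (1 / 6) := by
    rw [pow_one, ← ee_half, ← ee_add, show (1 / 2 + 2 / 3 : ℝ) = 1 / 6 + 1 by norm_num,
      ee_add, ee_one, mul_one]
  refine growth_contra (range p) (fun s => (GG Ap (-1) (pt (ee (2 / 3)) 1 s)).re)
    (fun j s => (GG Ap (-1) (pt (ζ ^ j) 0 s)).re)
    (fun j => (∑' k, lm 3 1 (-1) (ζ ^ j) 0 k).re)
    (m := Real.pi ^ 2 / 24 / (3 : ℕ)) (K := 1) (C := C) (by positivity)
    (nonradial_gt (by norm_num) h0 h1)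
    (fun j _ => radial_le (by norm_num) hw (hzj j) (fun h => ee_cases h)) zero_le_one hC
    (tendsto_re_GG isAP hw (norm_ee _) 1)
    (fun j _ => tendsto_re_GG isAP hw (hzj j) 0) ?_
  filter_upwards [self_mem_nhdsWithin] with s hs
  have hs' : (0 : ℝ) < s := hs
  have hx := norm_pt_lt (norm_ee (2 / 3)) 1 hs'
  have h2 := hb _ hx
  rw [hF _ hx] at h2
  rw [one_mul]
  refine h2.trans (le_of_eq ?_)
  congr 1
  refine Finset.sum_congr rfl fun j _ => ?_
  rw [norm_pt (norm_ee _)]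
  have e : ζ ^ j * ((Real.exp (-s) : ℝ) : ℂ) = pt (ζ ^ j) 0 s := by
    rw [pt]; push_cast; congr 2; ring
  rw [e, hF _ (norm_pt_lt (hzj j) 0 hs')]

end Pool.Agent.Results.MP_5217bf_nt.NotEventuallyPeriodic
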